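import Pool.Agent.Run7.h152.C2.Bridge

/-!
# Orthogonal lifts of cycles of codimension two and Tate's conjecture for divisors

Let `X` be a smooth proper variety of dimension `d = e + 3` over a number field, and let `𝒳` be a
regular proper flat model of `X`. Suppose that for each place `v` the scheme `𝒳_v` is good (for instance
smooth), or has a projective strictly semistable alteration such that Tate's conjecture *for divisors* is
true for the components of the closed fibre. Then each homologically trivial class in `Ch^2(X)` lifts
to a class on `𝒳` which is orthogonal to all classes of codimension `d - 1` supported in closed fibres:
Q1 for `i = 2`.

The main step is (2): for each strictly semistable scheme of relative dimension at least three with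
Tate's conjecture for divisors on the components of the closed fibre, `H^3(X)(2)` has no nonzero elements
which are killed by the monodromy operator and fixed by the Frobenius, which is a part of the
weight-monodromy conjecture for `H^3`.

The only unproved hypothesis is Tate's conjecture for divisors, on the components (not on the deeper
strata). No standard conjecture, no conjecture of Hodge type and no case of the weight-monodromy
conjecture is assumed; they were used for `i = 2` in the known result for semistable models (Bloch,
Gillet and Soulé) and in part (1) of `MP_62d77c_ag.SmallZeroCycles`, which needs the weight-monodromy
conjecture for the invariants in `H^3`. For `d = 3` the result without any hypothesis is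
`MP_62d77c_ag.OneDimensionalCycles`, so that the case `i = 2` is new for `d ≥ 4`.

Tate's conjecture for divisors is a birational invariant and compatible with products; it is known for
products of curves, abelian varieties, K3 surfaces, and for varieties whose `H^2` is spanned by divisors
(rational varieties, for instance). So Q1 for `i = 2` is unconditional for all `X` which have, over
finite extensions of the completions, strictly semistable alterations with components dominated by
products of such varieties: for instance for the varieties dominated by products of curves and of K3
surfaces with Kulikov models at all places (Künnemann: abelian varieties).

**Proof.** Put `V = H^3(X)(2)`, which is isomorphic to `H^(2 d - 3)(X)(d - 1)` by hard Lefschetz. The main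
point is that `V` has no elements which are killed by the monodromy operator and fixed by the Frobenius
(a part of the weight-monodromy conjecture). Such an element is represented in the weight spectral
sequence by `ρ x`, for an element `x` of `H^2(1)` of the components with `τ ρ x = 0`. It can be chosen in
the generalised eigenspace of the Frobenius for the eigenvalue `1`. By Tate's conjecture and the Hodge
index theorem this is an eigenspace, spanned by classes of divisors over the field of coefficients.
Write `x = ∑ c_j x_j` with families of divisors `x_j` and numbers `c_j` which are linearly independent
over `ℚ`. The intersection numbers of `τ ρ x_j` with cycles are rational, so all `τ ρ x_j` are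
numerically trivial. By the theorem in `MP_62d77c_ag.OneDimensionalCycles`, which uses the Hodge index
theorem on the double intersections, `ρ x_j` is a boundary for each `j`. So the element is zero. Since
numerically trivial cycles of dimension one on the components are homologically trivial, again by Tate's
conjecture for divisors, the argument of `MP_62d77c_ag.SmallZeroCycles` (1) applies. The
consequence for the local representation `V` (that `H^1(K_v, V) = 0` for `v` not over `ℓ`) seems to be
new as well.
-/

set_option autoImplicit false

universe u v w

namespace Pool.Agent.Results.MP_62d77c_ag.CodimensionTwo

open Pool.Agent.H914 Run7.h152.DR Run7.h152.HL Run7.h152.C2

/-- **Orthogonal lifts for cycles of codimension two.** (1) Let `A` be the groups for cycles of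
codimension `2` on a regular proper flat scheme with generic fibre of dimension `e + 3` over the ring of
integers of a number field, with the schemes `L v` over the completions. If each of these is good (for
instance smooth) or has a strictly semistable alteration with Tate's conjecture for divisors for the
components of the closed fibre, then each homologically trivial class is the restriction of a class which
is orthogonal to all fibral classes.

(2) Let `T` be the strata of the closed fibre of a projective strictly semistable scheme of relative
dimension `e + 3` over a complete discrete valuation ring with the residue field `k` with `q` elements,
with the Frobenius operators `φ`. If Tate's conjecture for divisors is true for the components, then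
`H^3(2)` of the generic fibre has no nonzero element which is killed by the monodromy operator and fixed
by the Frobenius. -/
theorem result :
    (∀ {A : Arith.{w}} {S : Type w} {L : S → Arith.{w}} (_ : Localisation A L) (e : ℕ),
      (∀ v, (L v).IsGood ∨ HasTateAlteration.{u, v, w} (L v) e) → A.HasLifts) ∧
    ∀ (k : Type u) [Field k] {𝒱 : VarClass k} {ops : CycleOps 𝒱} (W : WeilCohomology.{u, v} ops)
      (T : Tower 𝒱) (h : ∀ p, CycO (T.Q p)) (q e : ℕ) (φ : ∀ X : 𝒱.Obj, W.H X → W.H X),
      IsPolarised W T h → (∀ p l, (T.Q p l).dim + p = e + 3) → IsFrobenius W q φ →
        (∀ l, TateForDivisors W q (T.Q 0 l) (φ _)) → NoInvariantsInThree W T q φ :=
  ⟨fun Λ _ h => Λ.hasLifts fun v => (h v).imp id fun h => h.hasLifts,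
    fun _ _ _ _ _ _ _ _ _ _ hP hdim hφ hT => noInvariantsInThree hφ hP hdim hT⟩

end Pool.Agent.Results.MP_62d77c_ag.CodimensionTwo
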