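import Pool.Agent.Run7.h152.HL.Five
import Pool.Agent.Run7.h152.HL.Main

/-!
# Orthogonal lifts of one-dimensional cycles

Let `X` be a smooth proper variety of dimension `d ≥ 3` over a number field `E`, and let `𝒳` be a
regular proper flat model of `X` over `O_E`.

**Theorem.** Each homologically trivial class in `Ch^(d-1)(X)` (one-dimensional cycles on `X`) is the
restriction of a class in `Ch^(d-1)(𝒳)` which is orthogonal to all classes of codimension `2` with
support in closed fibres. So the statement Q1 is true for `i = d - 1`. For threefolds this is the case
`i = 2` of curves on threefolds, the first one beyond divisors and zero-cycles: the height pairing of
Beilinson and Bloch is defined on `Ch^2(X)_0` for all threefolds `X` with a regular model.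

The data are formalised as follows. `Arith` consists of the groups `Ch^i(𝒳)`, `Ch^i(X)`, the fibral
classes and the intersection numbers with these. `Localisation`: the question is local, since a class on
the completion `𝒳_v` which is zero on the generic fibre comes from the closed fibre. `IsGood`: all
lifts are orthogonal; this is known for smooth `𝒳_v`. `HasSemistableAlteration`: by de Jong's theorem
`𝒳_v` has an alteration `𝒳'` which is projective and strictly semistable over a finite extension. The
closed fibre of `𝒳'` is given by its strata `T.Q p` (the components of the intersections of `p + 1`
components, after a finite extension of the residue field) and their inclusions, with the alternating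
restrictions `ρ` and Gysin maps `τ` on their `ℓ`-adic cohomology. The structures `IsSemistable` and
`IsPolarised` list the facts which are used:

* the restriction to the components of a fibral class `b` is `-τ ρ b`, and the intersection numbers
  with fibral classes are computed on the components;
* if `z` on `𝒳'` is homologically trivial on the generic fibre, then its restriction to the components
  is zero in the `E_2` term of the weight spectral sequence (Rapoport and Zink, Deligne): it is `τ (a 1)`
  with `ρ (a 1) + τ (a 3) = 0`, `ρ (a 3) + τ (a 5) = 0`, …;
* `ρ ρ = 0`, `τ τ = 0`, `ρ τ + τ ρ = 0`, and these maps are compatible with the class `h` of an ample
  divisor;
* the Hodge index theorem for divisors on the strata, and the fact that numerically trivial divisors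
  are homologically trivial. Both are known in all characteristics.

These facts are not proved here; the theorem deduces Q1 for `i = d - 1` from them.

**Proof.** Let `z` be a lift of a homologically trivial class, on `𝒳'`. By linear algebra over `ℚ` a
correction by cycles `b` of codimension `d - 2` on the components exists if the restriction of `z` is
orthogonal to each divisor `w` on the components such that `τ ρ w` is numerically trivial. Let `w` be
such a divisor. The main step is that then `ρ w = τ v` and `ρ v = 0` for a combination `v` of the
components of the triple intersections; then `z · w = a_1 · ρ w = a_1 · τ v = ρ a_1 · v =
-τ a_3 · v = -a_3 · ρ v = 0`, as divisors with the same numerical class are homologically equivalent.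
This is the statement that the monodromy is injective on the algebraic part of the graded quotient of
weight `4` of `H^3`, for numerical classes. For the proof one takes a harmonic representative
`(u, a) = (ρ w - τ v, -ρ v)`, for the positive definite form given by the Hodge index theorem on the
double intersections and the degree on the quadruple ones, and writes `u = u_0 + h b` with `u_0`
primitive. One obtains from the Hodge index theorem on the triple intersections `ρ u_0 = 0`, `ρ b = 0`,
then from the one on the components `τ b = 0`, so that `(-u_0 + h b, a)` is also a cycle, and then
`(u, a)` is orthogonal to itself for the definite form. No case of the standard conjectures beyond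
divisors, of Tate's conjecture or of the weight-monodromy conjecture is used.

It was known for strictly semistable models under Grothendieck's standard conjectures, of Lefschetz and
of Hodge type, for the strata (Bloch, Gillet and Soulé), and for abelian varieties (Künnemann).
-/

set_option autoImplicit false

universe u v w

namespace Pool.Agent.Results.MP_62d77c_ag.OneDimensionalCycles

open Run7.h152.HL

/-- **Orthogonal lifts of one-dimensional cycles.** Let `A` be the groups for cycles of codimension
`e + 2` on a regular proper flat scheme with generic fibre of dimension `e + 3` over the ring of
integers of a number field. Suppose that over each place it is good (for instance smooth) or has a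
projective strictly semistable alteration. Then each homologically trivial class is the restriction of
a class which is orthogonal to all fibral classes. -/
theorem result {A : Arith.{w}} {S : Type w} {L : S → Arith.{w}} (Λ : Localisation A L) (e : ℕ)
    (h : ∀ v, (L v).IsGood ∨ HasSemistableAlteration.{u, v, w} (L v) e) : A.HasLifts := by
  refine Λ.hasLifts fun v => (h v).imp id ?_
  rintro ⟨A', Y, H, ⟨φ⟩, hY, hH⟩
  refine φ.hasLifts (hY.hasLifts (hH.numBoundary (e := e) fun p l => ?_))
  have := hY.dim p l
  omega

end Pool.Agent.Results.MP_62d77c_ag.OneDimensionalCycles
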