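import Pool.Agent.Run7.h384.BU.LMain

/-!
# MP_62d77c_ag: lifting orthogonally to fibral cycles, blow-ups and the middle codimension

All schemes `X`, `Y`, `B` are regular, connected, projective and flat over the integers (the models over rings of
integers of number fields are among them, and the statement does not depend on the base), of arbitrary
dimension. `R.H i X` stands for the group `Ch^i(X)_(ℚ,0)` of the problem, `R.Fib` for the property of being a
fibral class (supported in closed fibres), `R.int` for the intersection pairing, and `R.Lifts i X` says: every
element of `R.H i X` is congruent modulo fibral classes to an element which is orthogonal to the fibral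
classes in the complementary codimension. This is the question for the model `X` of its generic fibre and
for the codimension `i`, since all cycles on the generic fibre extend to `X`.

Known facts (`R.Known`): projective spaces over `ℤ` are regular, flat, smooth, and satisfy the statement; there
are no cycles of negative (co)dimension; every blow-up `B` of `X` in a centre `Y` of codimension `b + 1 ≥ 2` is
regular, and `Ch^i(B) = Ch^i(X) ⊕ ⨁_{1 ≤ j ≤ b} Ch^(i-j)(Y)`, also for the subgroups of cohomologically trivial
and of fibral classes. In suitable coordinates (a triangular change given by the Segre classes of the normal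
bundle) the intersection number of `(a, α_j)` with a fibral class `(a', α'_j)` is
`a a' - ∑_j α_j α'_(b+1-j)` (self-intersection formula).

Theorem.
1. If `B` is a blow-up of `X` in `Y`: the statement for `B` in codimension `i` is equivalent to the statement for
   `X` in codimension `i` and for `Y` in the codimensions `i - 1, …, i - b`; so it is invariant under
   blow-ups in centres for which the statement is known.
2. If `n > dim Y` and `B` is the blow-up of `P^(2n-1)` over `ℤ` in `Y`, then the statement for `Y` in ALL
   codimensions is equivalent to the statement for `B` in the ONE codimension `n`, the middle one, in which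
   both factors of the pairing have the same codimension.
3. For every infinite set `T` of integers, the statement for all `X` and all `i` is equivalent to the statement for
   `i = n` and the blow-ups of `P^(2n-1)`, `n ∈ T`; these have rational generic fibres. The same
   for the schemes of dimension at most `D` and the blow-ups in centres of dimension at most `D`.
-/

set_option autoImplicit false

open CategoryTheory AlgebraicGeometry Pool.Agent.Run7.h384.BU

namespace Pool.Agent.Results.MP_62d77c_ag.RationalModels

/-- **Theorem.** (1) The statement for the blow-up `B` of `X` in `Y`, codimension `b + 1`: equivalent to that for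
`X` in the same codimension and for `Y` in the codimensions `i - 1, …, i - b`. (2) For `n > dim Y` and the
blow-up `B` of `P^(2n-1)` in `Y`: all codimensions for `Y` are equivalent to the codimension `n` for `B`.
(3) All `X`, all codimensions: equivalent to the codimension `n` for the blow-ups of `P^(2n-1)`, `n` in an
infinite set. (4) The same in dimension at most `D`. -/
theorem result (R : Arith) (hR : R.Known) :
    (∀ X Y B : Scheme.{0}, FlatBlowUp X Y B → ∃ e b : ℕ, 1 ≤ b ∧
      topologicalKrullDim Y = ((e : ℕ) : WithBot ℕ∞) ∧
      topologicalKrullDim X = ((e + (b + 1) : ℕ) : WithBot ℕ∞) ∧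
      ∀ i : ℤ, R.Lifts i B ↔ R.Lifts i X ∧ ∀ j : Fin b, R.Lifts (i - ((j : ℕ) + 1)) Y) ∧
    (∀ (Y B : Scheme.{0}) (n e : ℕ), topologicalKrullDim Y = ((e : ℕ) : WithBot ℕ∞) → e < n →
      FlatBlowUp (PS (2 * n - 1)) Y B → ((∀ m : ℤ, R.Lifts m Y) ↔ R.Lifts n B)) ∧
    (∀ T : Set ℕ, T.Infinite →
      ((∀ X : Scheme.{0}, RegProj X → FlatZ X → ∀ i : ℤ, R.Lifts i X) ↔
        ∀ n ∈ T, ∀ Y B : Scheme.{0}, FlatBlowUp (PS (2 * n - 1)) Y B → R.Lifts n B)) ∧
    (∀ T : Set ℕ, T.Infinite → ∀ D : ℕ,
      ((∀ X : Scheme.{0}, RegProj X → FlatZ X → topologicalKrullDim X ≤ ((D : ℕ) : WithBot ℕ∞) →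
          ∀ i : ℤ, R.Lifts i X) ↔
        ∀ n ∈ T, D < n → ∀ Y B : Scheme.{0}, topologicalKrullDim Y ≤ ((D : ℕ) : WithBot ℕ∞) →
          FlatBlowUp (PS (2 * n - 1)) Y B → R.Lifts n B)) := by
  refine ⟨fun X Y B h => ?_, fun Y B n e he hn h => lifts_middle hR he hn h,
    fun T hT => lifts_all hR T hT, fun T hT D => lifts_dim hR T hT D⟩
  obtain ⟨e, b, D, hb, hD, he, hX, -, -, hl⟩ := lifts_blowUp hR h
  exact ⟨e, b, hb, he, hD ▸ hX, hl⟩

end Pool.Agent.Results.MP_62d77c_ag.RationalModels
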