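import Pool.Agent.Run7.h152.BS.Main

/-!
# Orthogonal lifts for varieties with small groups of zero-cycles

Let `X` be a smooth proper variety of dimension `d` over a number field, with a regular proper flat
model `𝒳` over the ring of integers. Q1 is known for `i = 1` and `i = d`, and by
`MP_62d77c_ag.OneDimensionalCycles` for `i = d - 1`, without any conjecture.

**Theorem.** (1) Q1 holds for `X` and `i` if at each place the scheme over the completion is good (for
instance smooth) or has a strictly semistable alteration which satisfies, for one prime number `ℓ`
(which may depend on the place): homological and numerical equivalence agree for cycles of the single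
codimension `j = d + 1 - i` on the components of the special fibre (not on the deeper strata), and
`H^(2 j - 1)(j)` of the generic fibre has no invariants coming from classes `ρ w`, with cycles `w` on
the components (`NoInvariants`, a small part of the weight-monodromy conjecture).

(2) Suppose that a nonzero multiple of the identity of `Ch^i(X)` is a sum of compositions of
correspondences through `Ch^(j_t)(Y_t)`, with smooth proper varieties `Y_t` with regular models, such
that for all `t` we have `j_t ≤ 1` or `j_t ≥ dim Y_t - 1` or (1) applies to `Y_t` and `j_t`. Then Q1 holds
for `X` and `i`: homologically trivial classes of codimension `i` on `X` lift to classes on `𝒳`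
orthogonal to all fibral classes.

(3) Suppose that the zero-cycles on `X` (over the complex numbers) are supported in dimension at most
three. Then Q1 holds for `X` in the codimensions `1, 2, d - 2, d - 1, d`, and in all codimensions if
`d ≤ 5`.

No conjecture is assumed in (3), nor in (2) without its last alternative. So Q1 is true in all
codimensions

* for all uniruled fourfolds, and for fibrations with rationally chain connected fibres and total
  dimension at most five over bases of dimension at most three;
* for all rationally connected varieties, in particular all Fano varieties, of dimension at most five;
* for all varieties the Chow motives of which are direct summands of sums of twisted motives of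
  varieties of dimension at most three (by (2): for `dim Y_t ≤ 3` each `j_t` is allowed);

and in codimension `2`, `d - 2` and `d - 1` for all varieties of all dimensions with zero-cycles supported
in dimension at most three, in particular for all rationally connected varieties.

Further unconditional cases by (1) and (2): products of curves (strictly semistable models with strata
obtained from products of curves; D is true for infinitely many `ℓ` by Clozel's theorem, and the
weight-monodromy conjecture is known for products of curves) and the varieties dominated by products of
curves; complete intersections in toric varieties (weight-monodromy: Scholze), if D is true for the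
components. (1) was known under Grothendieck's standard conjectures, of Lefschetz and of Hodge type,
for all strata of semistable models (Bloch, Gillet and Soulé).

The theorem of Bloch and Srinivas (a multiple of the diagonal is a sum of a cycle on `W × X`, `W` of
dimension at most three, and a cycle on `X × D`, `D` of codimension one) enters through
`HasSmallZeroCycles`, and de Jong's theorem gives regular alterations of `W` and `D`: closures of
correspondences act on the Chow groups, with rational coefficients, of regular schemes, compatibly with
the intersection numbers with fibral classes. The known facts are collected in `IsModels` and in
`IsSemistable`; they are not proved here.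

**Proof.** (1) The question is local, and descends along alterations. A correction of a lift `z` by
cycles of codimension `i - 1` on the components exists if the restriction of `z` is orthogonal to all
`w` of codimension `j - 1` on the components such that `τ ρ w` is numerically trivial. By D then
`τ ρ w = 0`, so that `ρ w` defines an invariant of `H^(2 j - 1)(j)`, which is zero: `ρ w` is a boundary,
and boundaries are orthogonal. (2) If `N c = ∑ f_t g_t c`, the classes `g_t (c / N)` on `Y_t` are
homologically trivial and have orthogonal lifts `z_t`, since `j_t = 0, 1, dim Y_t` are classical
(divisors and zero-cycles) and `j_t = dim Y_t - 1` is `OneDimensionalCycles`. By the projection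
formula `∑ f_t z_t` is an orthogonal lift of `c`. (3) For `i = 2` one uses the decomposition through
`Ch^2(W)`, `dim W ≤ 3`, and `Ch^1(D)`, and for `i = d - 2` the transposed one through
`Ch^(dim W - 2)(W)` and `Ch^(d - 2)(D)`: these are one-dimensional cycles on `D`.
-/

set_option autoImplicit false

universe u v w

namespace Pool.Agent.Results.MP_62d77c_ag.SmallZeroCycles

open Run7.h152.HL Run7.h152.BS

/-- **Orthogonal lifts for varieties with small groups of zero-cycles.** -/
theorem result :
    (∀ A : Arith.{w}, IsMonodromic.{u, v, w} A → A.HasLifts) ∧
    ∀ M : Models.{w}, IsModels.{u, v, w} M →
      (∀ (X : M.Var) (i r : ℕ) (Y : Fin r → M.Var) (j : Fin r → ℕ),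
        (∀ t, j t ≤ 1 ∨ M.dim (Y t) ≤ j t + 1 ∨ IsMonodromic.{u, v, w} (M.A (Y t) (j t))) →
          Decomposes (M.A X i) (fun t => M.A (Y t) (j t)) → (M.A X i).HasLifts) ∧
      ∀ X : M.Var, HasSmallZeroCycles M X →
        (∀ i, i ≤ 2 ∨ M.dim X ≤ i + 2 → (M.A X i).HasLifts) ∧
          (M.dim X ≤ 5 → ∀ i, (M.A X i).HasLifts) :=
  ⟨fun _ h => h.hasLifts, fun _ hM => ⟨fun X i _ Y j hj h => hasLifts_of_decomposes hM X i Y j hj h,
    fun X hX => ⟨fun i hi => hasLifts_of_small hM X hX i hi,
      fun _ i => hasLifts_of_small hM X hX i (by omega)⟩⟩⟩

end Pool.Agent.Results.MP_62d77c_ag.SmallZeroCycles
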